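import Pool.Agent.Lib.MP_1a91b9_ntW.F.SerH
import Pool.Agent.Lib.MP_1a91b9_ntW.F.BsdW
import Pool.Agent.Lib.MP_1a91b9_ntW.R.Density8

/-!
# The conjecture of Birch and Swinnerton-Dyer modulo `2` for all elliptic curves over `ℚ(√-2)` with
complex multiplication by `ℤ[√-2]`: the final form
-/

set_option autoImplicit false

namespace Pool.Agent.Lib.MP_1a91b9_ntW

open NumberField IntermediateField
open Pool.Agent.Lib.MP_1a91b9_ntS (BSDMod)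

noncomputable section

/-- **The main result** for the curves `y² = x³ + 4 d x² + 2 d² x` over `K8`. -/
theorem main_W : ∃ q : 𝓞 K8 → ℚ,
    (∀ d : 𝓞 K8, Squarefree d → ∀ W : WeierstrassCurve K8,
      W = ⟨0, 4 * (d : K8), 0, 2 * (d : K8) ^ 2, 0⟩ → BSDMod 2 W (q d)) ∧
    ∀ (n : ℕ) (m u : 𝓞 K8), m ∣ 2 ^ n → ¬ (2 ∣ m ∧ 2 ∣ u) →
      Filter.Tendsto (fun X : ℝ =>
        (Nat.card {d : 𝓞 K8 // Squarefree d ∧ m ∣ d - u ∧
          |Algebra.norm ℤ d| ≤ X ∧ ¬ 2 ∣ (q d).num} : ℝ) /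
        (Nat.card {d : 𝓞 K8 // Squarefree d ∧ m ∣ d - u ∧
          |Algebra.norm ℤ d| ≤ X} : ℝ)) Filter.atTop
        (nhds (∏' i : ℕ, (1 + 1 / (2 : ℝ) ^ (i + 1))⁻¹)) := by
  obtain ⟨q, h1, h2⟩ := F.bsdW F.serH
  refine ⟨q, fun d hd W hW => ?_, fun n m u hm hu => ?_⟩
  · subst hW
    exact h1 d hd
  · exact limit8 hm hu (fun d => ¬ (2 : ℤ) ∣ (q d).num) h2

theorem tt_two : Pool.Agent.Lib.MP_1a91b9_nuX.UF.tt 0 2 ^ 2 = -2 := emb8_sq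

/-- `K8` is generated by a square root of `-2`. -/
theorem KK_eq {s : ℂ} (hs : s ^ 2 = -2) :
    ℚ⟮s⟯ = Pool.Agent.Lib.MP_1a91b9_nuX.UF.KK 0 2 Pool.Agent.Lib.MP_1a91b9_nuX.UF.good8.pos := by
  have h1 : (s - Pool.Agent.Lib.MP_1a91b9_nuX.UF.tt 0 2) *
      (s + Pool.Agent.Lib.MP_1a91b9_nuX.UF.tt 0 2) = 0 := by
    linear_combination hs - tt_two
  have hst : s = Pool.Agent.Lib.MP_1a91b9_nuX.UF.tt 0 2 ∨
      s = -Pool.Agent.Lib.MP_1a91b9_nuX.UF.tt 0 2 := by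
    rcases mul_eq_zero.1 h1 with h | h
    · left
      linear_combination h
    · right
      linear_combination h
  apply le_antisymm
  · rw [adjoin_simple_le_iff]
    rcases hst with h | h
    · exact ⟨0, 1, by rw [h]; push_cast; ring⟩
    · exact ⟨0, -1, by rw [h]; push_cast; ring⟩
  · rintro z ⟨x, y, rfl⟩
    have hs1 : s ∈ ℚ⟮s⟯ := mem_adjoin_simple_self ℚ s
    have hr : ∀ r : ℚ, (r : ℂ) ∈ ℚ⟮s⟯ := fun r => by
      have := (ℚ⟮s⟯).algebraMap_mem r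
      exact this
    rcases hst with h | h
    · rw [← h]
      exact add_mem (hr x) (mul_mem (hr y) hs1)
    · have e : Pool.Agent.Lib.MP_1a91b9_nuX.UF.tt 0 2 = -s := by
        rw [h, neg_neg]
      rw [e]
      exact add_mem (hr x) (mul_mem (hr y) (neg_mem hs1))

/-- **The main result**, for the subfield of `ℂ` generated by a square root of `-2`. -/
theorem main_WC (K : IntermediateField ℚ ℂ) [NumberField K] (s : ℂ) (hs : s ^ 2 = -2)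
    (hK : K = ℚ⟮s⟯) : ∃ q : 𝓞 K → ℚ,
    (∀ d : 𝓞 K, Squarefree d → ∀ W : WeierstrassCurve K,
      W = ⟨0, 4 * (d : K), 0, 2 * (d : K) ^ 2, 0⟩ → BSDMod 2 W (q d)) ∧
    ∀ (n : ℕ) (m u : 𝓞 K), m ∣ 2 ^ n → ¬ (2 ∣ m ∧ 2 ∣ u) →
      Filter.Tendsto (fun X : ℝ =>
        (Nat.card {d : 𝓞 K // Squarefree d ∧ m ∣ d - u ∧
          |Algebra.norm ℤ d| ≤ X ∧ ¬ 2 ∣ (q d).num} : ℝ) /
        (Nat.card {d : 𝓞 K // Squarefree d ∧ m ∣ d - u ∧
          |Algebra.norm ℤ d| ≤ X} : ℝ)) Filter.atTop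
        (nhds (∏' i : ℕ, (1 + 1 / (2 : ℝ) ^ (i + 1))⁻¹)) := by
  rw [KK_eq hs] at hK
  subst hK
  exact main_W

end

end Pool.Agent.Lib.MP_1a91b9_ntW
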